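import Pool.Agent.N343.LT.Stm

/-!
# Project LT: converting pairs of clusters, induction
-/

set_option autoImplicit false
set_option linter.all false

namespace Pool.Agent.N495.LT.CPI

open MvPolynomial Finset Pool.Agent.Helper929 Pool.Agent.H604R2.LEC Pool.Agent.Y819.ZF
  Pool.Agent.Y819.ZF.RelM Pool.Agent.N343.LT

theorem deg {C : Type} [Fintype C] [DecidableEq C] (A : C → C → ℕ) (m : ℕ) (φ : C → C)
    (v : C × Fin m) :
    ∑ᶠ w, MI A m φ v w = ∑ w : C × Fin m, A v.1 w.1 + ∑ t : Fin m, if v.2 ≠ t then 1 else 0 := by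
  rw [finsum_eq_sum_of_fintype]
  unfold MI
  rw [Finset.sum_add_distrib]
  congr 1
  rw [Fintype.sum_prod_type, Finset.sum_eq_single (φ v.1)]
  · refine Finset.sum_congr rfl fun t _ => ?_
    simp
  · intro d _ hd
    refine Finset.sum_eq_zero fun t _ => ?_
    rw [if_neg]
    rintro ⟨h, -⟩
    exact hd h
  · intro h
    exact absurd (Finset.mem_univ _) h

theorem reg {C : Type} [Fintype C] [DecidableEq C] (d : ℕ) (A : C → C → ℕ) (m : ℕ) (φ : C → C)
    (hA : ∀ c d, A c d = A d c) (hA0 : ∀ c, A c c = 0) (hφ : ∀ c, φ (φ c) = c)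
    (h : RegM d (MI A m id)) : RegM d (MI A m φ) := by
  refine ⟨h.fin, ?_, ?_, ?_⟩
  · intro v w
    unfold MI
    rw [hA v.1 w.1]
    congr 1
    refine if_congr ?_ rfl rfl
    constructor
    · rintro ⟨h1, h2⟩
      exact ⟨by rw [h1, hφ], h2.symm⟩
    · rintro ⟨h1, h2⟩
      exact ⟨by rw [h1, hφ], h2.symm⟩
  · intro v
    unfold MI
    rw [hA0, if_neg (fun h => h.2 rfl)]
  · intro v
    rw [← h.reg v, deg, deg]

theorem main (hCP1 : S_CP1) : S_CPI := by
  classical
  intro p hp hp2 C _ _ A m φ hm hA hA0 hφ hreg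
  refine ⟨reg _ A m φ hA hA0 hφ hreg, ?_⟩
  induction' hN : (univ.filter fun c => φ c ≠ c).card using Nat.strong_induction_on with N ih
    generalizing φ
  by_cases h : ∃ a, φ a ≠ a
  · obtain ⟨a, ha⟩ := h
    obtain ⟨b, hb⟩ : ∃ b, b = φ a := ⟨_, rfl⟩
    have hab : a ≠ b := by rw [hb]; exact ha.symm
    have hba : φ b = a := by rw [hb, hφ]
    have hψa : Equiv.swap a b (φ a) = a := by rw [← hb, Equiv.swap_apply_right]
    have hψb : Equiv.swap a b (φ b) = b := by rw [hba, Equiv.swap_apply_left]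
    have hoth : ∀ c, c ≠ a → c ≠ b → Equiv.swap a b (φ c) = φ c := by
      intro c h1 h2
      refine Equiv.swap_apply_of_ne_of_ne ?_ ?_
      · intro h3
        apply h2
        rw [hb, ← h3, hφ]
      · intro h3
        apply h1
        rw [← hba, ← h3, hφ]
    have hψ : ∀ c, Equiv.swap a b (φ (Equiv.swap a b (φ c))) = c := by
      intro c
      by_cases h1 : c = a
      · rw [h1, hψa, hψa]
      · by_cases h2 : c = b
        · rw [h2, hψb, hψb]
        · rw [hoth c h1 h2, hφ]
          exact Equiv.swap_apply_of_ne_of_ne h1 h2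
    have hφψ : φ = fun c => Equiv.swap a b ((fun c => Equiv.swap a b (φ c)) c) := by
      funext c
      simp
    have h1 := hCP1 p hp2 C A m (fun c => Equiv.swap a b (φ c)) a b hm hA hA0 hψ hab hψa hψb
      (reg _ A m _ hA hA0 hψ hreg) (by rw [← hφψ]; exact reg _ A m φ hA hA0 hφ hreg)
    rw [← hφψ] at h1
    refine (ih _ ?_ (fun c => Equiv.swap a b (φ c)) hψ rfl).trans h1
    rw [← hN]
    apply Finset.card_lt_card
    rw [Finset.ssubset_iff_of_subset]
    · exact ⟨a, by simpa using ha, by simpa using hψa⟩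
    · intro c hc
      simp only [mem_filter, mem_univ, true_and] at hc ⊢
      intro h2
      apply hc
      have h3 : c ≠ a := by
        rintro rfl
        exact hc hψa
      have h4 : c ≠ b := by
        rintro rfl
        exact hc hψb
      rw [hoth c h3 h4, h2]
  · have h2 : φ = id := by
      funext c
      by_contra h3
      exact h ⟨c, h3⟩
    rw [h2]

end Pool.Agent.N495.LT.CPI
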